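import Pool.Agent.Lib_helper17.ED.Defs

/-! Block QR: quasirandom graphs of density `pp`.  Vertices: points `(a, b)` of `F_p × F_p`,
`(a, b) ~ (a', b')` iff `a a' - b - b' ∈ T`. -/

namespace Pool.Agent.Lib_helper17.ED

open Finset

/-- the bilinear form -/
def QR_phi {p : ℕ} (x y : ZMod p × ZMod p) : ZMod p := x.1 * y.1 - x.2 - y.2

theorem QR_phi_comm {p : ℕ} (x y : ZMod p × ZMod p) : QR_phi x y = QR_phi y x := by
  unfold QR_phi; ring

theorem QR_zero (p : ℕ) [Fact p.Prime] (g : ZMod p → ℝ) (hg : ∑ t, g t = 0)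
    (y y' : ZMod p × ZMod p) (h : y.1 ≠ y'.1) :
    ∑ x : ZMod p × ZMod p, g (QR_phi x y) * g (QR_phi x y') = 0 := by
  rw [Fintype.sum_prod_type]
  have e1 : ∀ a : ZMod p, ∑ b : ZMod p, g (QR_phi (a, b) y) * g (QR_phi (a, b) y') =
      ∑ c : ZMod p, g c * g (c + (a * (y'.1 - y.1) - (y'.2 - y.2))) := by
    intro a
    have hb : Function.Bijective (fun b : ZMod p => a * y.1 - y.2 - b) := by
      rw [← Finite.injective_iff_bijective]
      intro b b' hbb
      simpa using hbb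
    rw [← hb.sum_comp (fun c => g c * g (c + (a * (y'.1 - y.1) - (y'.2 - y.2))))]
    refine Finset.sum_congr rfl fun b _ => ?_
    unfold QR_phi
    congr 2 <;> ring
  rw [Finset.sum_congr rfl fun a _ => e1 a, Finset.sum_comm]
  apply Finset.sum_eq_zero
  intro c _
  rw [← Finset.mul_sum]
  have hb : Function.Bijective (fun a : ZMod p => c + (a * (y'.1 - y.1) - (y'.2 - y.2))) := by
    rw [← Finite.injective_iff_bijective]
    intro a a' haa
    have h1 : a * (y'.1 - y.1) = a' * (y'.1 - y.1) := by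
      have := haa
      simpa using this
    exact mul_right_cancel₀ (sub_ne_zero.2 (Ne.symm h)) h1
  rw [hb.sum_comp g, hg, mul_zero]

theorem QR_main (p : ℕ) [Fact p.Prime] (g : ZMod p → ℝ) (hg : ∑ t, g t = 0)
    (hg1 : ∀ t, |g t| ≤ 1) (X Y : Finset (ZMod p × ZMod p)) :
    (∑ x ∈ X, ∑ y ∈ Y, g (QR_phi x y)) ^ 2 ≤ (p : ℝ) ^ 7 := by
  have hcard : Fintype.card (ZMod p × ZMod p) = p ^ 2 := by
    rw [Fintype.card_prod, ZMod.card]; ring
  have hc : ∀ Z : Finset (ZMod p × ZMod p), (Z.card : ℝ) ≤ (p : ℝ) ^ 2 := by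
    intro Z
    have := Finset.card_le_univ Z
    rw [hcard] at this
    exact_mod_cast this
  have h1 : (∑ x ∈ X, ∑ y ∈ Y, g (QR_phi x y)) ^ 2 ≤
      (X.card : ℝ) * ∑ x ∈ X, (∑ y ∈ Y, g (QR_phi x y)) ^ 2 := by
    have := sq_sum_le_card_mul_sum_sq (s := X) (f := fun x => ∑ y ∈ Y, g (QR_phi x y))
    exact this
  have h2 : ∑ x ∈ X, (∑ y ∈ Y, g (QR_phi x y)) ^ 2 ≤
      ∑ x : ZMod p × ZMod p, (∑ y ∈ Y, g (QR_phi x y)) ^ 2 :=
    Finset.sum_le_sum_of_subset_of_nonneg (Finset.subset_univ X) fun x _ _ => sq_nonneg _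
  have h3 : ∑ x : ZMod p × ZMod p, (∑ y ∈ Y, g (QR_phi x y)) ^ 2 =
      ∑ y ∈ Y, ∑ y' ∈ Y, ∑ x : ZMod p × ZMod p, g (QR_phi x y) * g (QR_phi x y') := by
    have e : ∀ x : ZMod p × ZMod p, (∑ y ∈ Y, g (QR_phi x y)) ^ 2 =
        ∑ y ∈ Y, ∑ y' ∈ Y, g (QR_phi x y) * g (QR_phi x y') := by
      intro x
      rw [sq, Finset.sum_mul_sum]
    rw [Finset.sum_congr rfl fun x _ => e x, Finset.sum_comm]
    refine Finset.sum_congr rfl fun y _ => ?_
    rw [Finset.sum_comm]
  have h4 : ∀ y y' : ZMod p × ZMod p,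
      ∑ x : ZMod p × ZMod p, g (QR_phi x y) * g (QR_phi x y') ≤
        if y.1 = y'.1 then (p : ℝ) ^ 2 else 0 := by
    intro y y'
    split_ifs with h
    · calc ∑ x : ZMod p × ZMod p, g (QR_phi x y) * g (QR_phi x y')
          ≤ ∑ x : ZMod p × ZMod p, (1 : ℝ) := by
            refine Finset.sum_le_sum fun x _ => ?_
            calc g (QR_phi x y) * g (QR_phi x y') ≤ |g (QR_phi x y) * g (QR_phi x y')| :=
                  le_abs_self _
              _ = |g (QR_phi x y)| * |g (QR_phi x y')| := abs_mul _ _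
              _ ≤ 1 * 1 := mul_le_mul (hg1 _) (hg1 _) (abs_nonneg _) (by norm_num)
              _ = 1 := by norm_num
        _ = (p : ℝ) ^ 2 := by
            rw [Finset.sum_const, Finset.card_univ, hcard]; simp
    · exact (QR_zero p g hg y y' h).le
  have h5 : ∑ y ∈ Y, ∑ y' ∈ Y, ∑ x : ZMod p × ZMod p, g (QR_phi x y) * g (QR_phi x y') ≤
      (p : ℝ) ^ 5 := by
    calc _ ≤ ∑ y ∈ Y, ∑ y' ∈ Y, (if y.1 = y'.1 then (p : ℝ) ^ 2 else 0) :=
          Finset.sum_le_sum fun y _ => Finset.sum_le_sum fun y' _ => h4 y y'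
      _ ≤ ∑ y : ZMod p × ZMod p, ∑ y' : ZMod p × ZMod p,
            (if y.1 = y'.1 then (p : ℝ) ^ 2 else 0) := by
          refine (Finset.sum_le_sum fun y _ => Finset.sum_le_sum_of_subset_of_nonneg
            (Finset.subset_univ Y) fun _ _ _ => by positivity).trans ?_
          exact Finset.sum_le_sum_of_subset_of_nonneg (Finset.subset_univ Y)
            fun _ _ _ => Finset.sum_nonneg fun _ _ => by positivity
      _ = ∑ y : ZMod p × ZMod p, (p : ℝ) ^ 3 := by
          refine Finset.sum_congr rfl fun y _ => ?_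
          rw [Fintype.sum_prod_type]
          have : ∀ a : ZMod p, ∑ b : ZMod p, (if y.1 = ((a, b) : ZMod p × ZMod p).1 then
              (p : ℝ) ^ 2 else 0) = if y.1 = a then (p : ℝ) ^ 3 else 0 := by
            intro a
            by_cases ha : y.1 = a
            · simp only [ha, if_true, Finset.sum_const, Finset.card_univ, ZMod.card, nsmul_eq_mul]
              ring
            · simp [ha]
          rw [Finset.sum_congr rfl fun a _ => this a]
          simp
      _ = (p : ℝ) ^ 5 := by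
          rw [Finset.sum_const, Finset.card_univ, hcard, nsmul_eq_mul]; push_cast; ring
  have hp0 : (0 : ℝ) ≤ p := Nat.cast_nonneg p
  calc (∑ x ∈ X, ∑ y ∈ Y, g (QR_phi x y)) ^ 2
      ≤ (X.card : ℝ) * ∑ x ∈ X, (∑ y ∈ Y, g (QR_phi x y)) ^ 2 := h1
    _ ≤ (p : ℝ) ^ 2 * (p : ℝ) ^ 5 := by
        apply mul_le_mul (hc X) (h2.trans (h3.le.trans h5))
          (Finset.sum_nonneg fun _ _ => sq_nonneg _) (by positivity)
    _ = (p : ℝ) ^ 7 := by ring

theorem qr_pr (ε : ℝ) (hε : 0 < ε) : ∃ N : ℕ, ∀ n : ℕ, N ≤ n →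
    ∃ G : SimpleGraph (Fin n), ∀ X Y : Finset (Fin n),
      |eb G.Adj X Y - pp * (X.card : ℝ) * (Y.card : ℝ)| ≤ ε * (n : ℝ) ^ 2 := by
  classical
  obtain ⟨N, hN⟩ := exists_nat_gt ((400 / ε) ^ 4 + 1)
  refine ⟨N, fun n hn => ?_⟩
  have hnN : (400 / ε) ^ 4 + 1 < (n : ℝ) := hN.trans_le (by exact_mod_cast hn)
  have hn1 : (1 : ℝ) ≤ n := by
    have : (0 : ℝ) ≤ (400 / ε) ^ 4 := by positivity
    linarith
  -- the prime
  obtain ⟨p, hp, hp1, hp2⟩ := Nat.exists_prime_lt_and_le_two_mul (Nat.sqrt n + 1) (by omega)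
  have : Fact p.Prime := ⟨hp⟩
  have hnp : n ≤ p ^ 2 := by
    have h1 : n < (Nat.sqrt n + 1) ^ 2 := by
      have := Nat.lt_succ_sqrt n
      rw [sq]; exact this
    have h2 : (Nat.sqrt n + 1) ^ 2 ≤ p ^ 2 := Nat.pow_le_pow_left hp1.le 2
    omega
  set s : ℝ := √(n : ℝ) with hs
  have hs1 : 1 ≤ s := by rw [hs]; exact Real.one_le_sqrt.2 hn1
  have hss : s ^ 2 = n := Real.sq_sqrt (by positivity)
  have hps : (p : ℝ) ≤ 4 * s := by
    have h1 : (p : ℝ) ≤ 2 * (Nat.sqrt n + 1) := by exact_mod_cast hp2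
    have h2 : ((Nat.sqrt n : ℕ) : ℝ) ≤ s := Real.nat_sqrt_le_real_sqrt
    linarith
  have hsp : s ≤ p := by
    have h1 : (n : ℝ) ≤ (p : ℝ) ^ 2 := by exact_mod_cast hnp
    rw [hs]; exact (Real.sqrt_le_left (by positivity)).2 h1
  have hp0 : (0 : ℝ) < p := by exact_mod_cast hp.pos
  -- the embedding
  have hcard : Fintype.card (Fin n) ≤ Fintype.card (ZMod p × ZMod p) := by
    rw [Fintype.card_fin, Fintype.card_prod, ZMod.card]
    calc n ≤ p ^ 2 := hnp
      _ = p * p := sq p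
  obtain ⟨e⟩ := Function.Embedding.nonempty_of_card_le hcard
  -- the set T
  have hpp0 := pp_pos
  have hpp1 := pp_lt
  set k : ℕ := ⌊pp * p⌋₊ with hk
  have hkp : k ≤ p := by
    have h1 : pp * p ≤ p := by nlinarith
    have h2 : (k : ℝ) ≤ pp * p := Nat.floor_le (by positivity)
    exact_mod_cast h2.trans h1
  have hcardT : k ≤ (univ : Finset (ZMod p)).card := by
    rw [Finset.card_univ, ZMod.card]; exact hkp
  obtain ⟨T, hT1, hT2⟩ := Finset.exists_subset_card_eq hcardT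
  set τ : ℝ := (k : ℝ) / p with hτ
  have hτ0 : 0 ≤ τ := by positivity
  have hτ1 : τ ≤ 1 := by
    rw [hτ, div_le_one hp0]; exact_mod_cast hkp
  have hτpp : |τ - pp| ≤ 1 / p := by
    have h2 : (k : ℝ) ≤ pp * p := Nat.floor_le (by positivity)
    have h3 : pp * p < k + 1 := Nat.lt_floor_add_one _
    rw [hτ, abs_le]
    constructor
    · have : pp ≤ (k + 1) / p := by rw [le_div_iff₀ hp0]; exact h3.le
      rw [add_div] at this
      linarith
    · have : (k : ℝ) / p ≤ pp := by rw [div_le_iff₀ hp0]; exact h2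
      have : (0 : ℝ) ≤ 1 / p := by positivity
      linarith
  let g : ZMod p → ℝ := fun t => (if t ∈ T then 1 else 0) - τ
  have hg : ∑ t, g t = 0 := by
    simp only [g]
    rw [Finset.sum_sub_distrib, Finset.sum_ite_mem, Finset.univ_inter, Finset.sum_const,
      Finset.sum_const, Finset.card_univ, ZMod.card, hT2, nsmul_eq_mul, nsmul_eq_mul, mul_one, hτ]
    field_simp
    ring
  have hg1 : ∀ t, |g t| ≤ 1 := by
    intro t
    simp only [g]
    split_ifs
    · rw [abs_le]; constructor <;> linarith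
    · rw [abs_le]; constructor <;> linarith
  -- the graph
  let G : SimpleGraph (Fin n) :=
    { Adj := fun u v => u ≠ v ∧ QR_phi (e u) (e v) ∈ T
      symm := ⟨fun u v h => ⟨h.1.symm, by rw [QR_phi_comm]; exact h.2⟩⟩
      loopless := ⟨fun u h => h.1 rfl⟩ }
  refine ⟨G, fun X Y => ?_⟩
  have hXn : (X.card : ℝ) ≤ n := by
    have := Finset.card_le_univ X; rw [Fintype.card_fin] at this; exact_mod_cast this
  have hYn : (Y.card : ℝ) ≤ n := by
    have := Finset.card_le_univ Y; rw [Fintype.card_fin] at this; exact_mod_cast this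
  have hX0 : (0 : ℝ) ≤ X.card := Nat.cast_nonneg _
  have hY0 : (0 : ℝ) ≤ Y.card := Nat.cast_nonneg _
  -- split
  have e1 : eb G.Adj X Y = ∑ x ∈ X, ∑ y ∈ Y, g (QR_phi (e x) (e y)) + τ * X.card * Y.card
      - ∑ x ∈ X, ∑ y ∈ Y, (if x = y ∧ QR_phi (e x) (e y) ∈ T then (1 : ℝ) else 0) := by
    have h0 : eb G.Adj X Y = ∑ x ∈ X, ∑ y ∈ Y, (if G.Adj x y then (1 : ℝ) else 0) := by
      unfold eb
      refine Finset.sum_congr rfl fun x _ => Finset.sum_congr rfl fun y _ => ?_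
      congr
    rw [h0]
    have h1 : ∀ x ∈ X, ∑ y ∈ Y, (if G.Adj x y then (1 : ℝ) else 0) =
        ∑ y ∈ Y, g (QR_phi (e x) (e y)) + τ * Y.card
        - ∑ y ∈ Y, (if x = y ∧ QR_phi (e x) (e y) ∈ T then (1 : ℝ) else 0) := by
      intro x _
      have h2 : ∀ y ∈ Y, (if G.Adj x y then (1 : ℝ) else 0) =
          (g (QR_phi (e x) (e y)) + τ)
          - (if x = y ∧ QR_phi (e x) (e y) ∈ T then (1 : ℝ) else 0) := by
        intro y _
        have hadj : G.Adj x y ↔ (x ≠ y ∧ QR_phi (e x) (e y) ∈ T) := Iff.rfl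
        simp only [hadj, g]
        by_cases a1 : x = y <;> by_cases a2 : QR_phi (e x) (e y) ∈ T <;> simp [a1, a2]
      rw [Finset.sum_congr rfl h2, Finset.sum_sub_distrib, Finset.sum_add_distrib,
        Finset.sum_const, nsmul_eq_mul]
      ring
    rw [Finset.sum_congr rfl h1, Finset.sum_sub_distrib, Finset.sum_add_distrib,
      Finset.sum_const, nsmul_eq_mul]
    ring
  have e2 : |∑ x ∈ X, ∑ y ∈ Y, (if x = y ∧ QR_phi (e x) (e y) ∈ T then (1 : ℝ) else 0)| ≤ n := by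
    rw [abs_of_nonneg (Finset.sum_nonneg fun _ _ => Finset.sum_nonneg fun _ _ => by positivity)]
    calc _ ≤ ∑ x ∈ X, (1 : ℝ) := by
          refine Finset.sum_le_sum fun x _ => ?_
          calc ∑ y ∈ Y, (if x = y ∧ QR_phi (e x) (e y) ∈ T then (1 : ℝ) else 0)
              ≤ ∑ y ∈ Y, (if x = y then (1 : ℝ) else 0) := by
                refine Finset.sum_le_sum fun y _ => ?_
                by_cases a1 : x = y
                · by_cases a2 : QR_phi (e x) (e y) ∈ T <;> simp [a1, a2]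
                  all_goals split_ifs <;> norm_num
                · simp [a1]
            _ ≤ 1 := by
                rw [Finset.sum_ite_eq]; split_ifs <;> norm_num
      _ = X.card := by simp
      _ ≤ n := hXn
  have e3 : |∑ x ∈ X, ∑ y ∈ Y, g (QR_phi (e x) (e y))| ≤ 128 * s ^ 3 * √s := by
    have h1 := QR_main p g hg hg1 (X.map e) (Y.map e)
    have h2 : ∑ x ∈ X.map e, ∑ y ∈ Y.map e, g (QR_phi x y) =
        ∑ x ∈ X, ∑ y ∈ Y, g (QR_phi (e x) (e y)) := by
      rw [Finset.sum_map]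
      exact Finset.sum_congr rfl fun x _ => Finset.sum_map _ _ _
    rw [h2] at h1
    have h3 : (p : ℝ) ^ 7 ≤ (4 * s) ^ 7 := pow_le_pow_left₀ hp0.le hps 7
    have hsq : √s ^ 2 = s := Real.sq_sqrt (by linarith)
    apply abs_le_of_sq_le_sq
    · calc (∑ x ∈ X, ∑ y ∈ Y, g (QR_phi (e x) (e y))) ^ 2 ≤ (4 * s) ^ 7 := h1.trans h3
        _ = (128 * s ^ 3 * √s) ^ 2 := by
            have : (128 * s ^ 3 * √s) ^ 2 = 16384 * s ^ 6 * √s ^ 2 := by ring
            rw [this, hsq]; ring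
    · positivity
  have e4 : |τ * X.card * Y.card - pp * X.card * Y.card| ≤ s ^ 3 := by
    have h1 : τ * X.card * Y.card - pp * X.card * Y.card = (τ - pp) * (X.card * Y.card) := by ring
    rw [h1, abs_mul, abs_of_nonneg (by positivity : (0 : ℝ) ≤ X.card * Y.card)]
    calc |τ - pp| * (X.card * Y.card) ≤ (1 / p) * (n * n) :=
          mul_le_mul hτpp (mul_le_mul hXn hYn hY0 (by positivity)) (by positivity) (by positivity)
      _ ≤ (1 / s) * (n * n) := by
          apply mul_le_mul_of_nonneg_right _ (by positivity)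
          exact one_div_le_one_div_of_le (by linarith) hsp
      _ = s ^ 3 := by
          rw [← hss]; field_simp
  -- s is large
  have hs4 : 400 / ε ≤ √s := by
    have h1 : (400 / ε) ^ 4 ≤ √s ^ 4 := by
      have : √s ^ 4 = n := by
        have : √s ^ 4 = (√s ^ 2) ^ 2 := by ring
        rw [this, Real.sq_sqrt (by linarith), hss]
      rw [this]; linarith
    exact le_of_pow_le_pow_left₀ (by norm_num) (by positivity) h1
  have hss1 : 1 ≤ √s := Real.one_le_sqrt.2 hs1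
  have hsq : √s ^ 2 = s := Real.sq_sqrt (by linarith)
  have hfin : (n : ℝ) + 128 * s ^ 3 * √s + s ^ 3 ≤ ε * (n : ℝ) ^ 2 := by
    have h1 : (400 : ℝ) ≤ ε * √s := by
      rw [div_le_iff₀ hε] at hs4; linarith
    have h2 : ε * (n : ℝ) ^ 2 = (ε * √s) * (s ^ 3 * √s) := by
      rw [← hss]
      have : (ε * √s) * (s ^ 3 * √s) = ε * (√s ^ 2) * s ^ 3 := by ring
      rw [this, hsq]; ring
    rw [h2]
    have h3 : (1 : ℝ) ≤ s ^ 3 * √s := one_le_mul_of_one_le_of_one_le (one_le_pow₀ hs1) hss1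
    have h4 : s ^ 3 ≤ s ^ 3 * √s := le_mul_of_one_le_right (by positivity) hss1
    have h5 : (n : ℝ) ≤ s ^ 3 := by
      rw [← hss]; nlinarith [sq_nonneg s]
    have h6 : 400 * (s ^ 3 * √s) ≤ (ε * √s) * (s ^ 3 * √s) :=
      mul_le_mul_of_nonneg_right h1 (by positivity)
    nlinarith
  calc |eb G.Adj X Y - pp * (X.card : ℝ) * (Y.card : ℝ)|
      = |∑ x ∈ X, ∑ y ∈ Y, g (QR_phi (e x) (e y)) +
          (τ * X.card * Y.card - pp * X.card * Y.card)
          - ∑ x ∈ X, ∑ y ∈ Y, (if x = y ∧ QR_phi (e x) (e y) ∈ T then (1 : ℝ) else 0)| := by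
        rw [e1]; congr 1; ring
    _ ≤ |∑ x ∈ X, ∑ y ∈ Y, g (QR_phi (e x) (e y)) +
          (τ * X.card * Y.card - pp * X.card * Y.card)| +
          |∑ x ∈ X, ∑ y ∈ Y, (if x = y ∧ QR_phi (e x) (e y) ∈ T then (1 : ℝ) else 0)| :=
        abs_sub _ _
    _ ≤ (128 * s ^ 3 * √s + s ^ 3) + n := add_le_add ((abs_add_le _ _).trans (add_le_add e3 e4)) e2
    _ ≤ _ := by linarith

end Pool.Agent.Lib_helper17.ED
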