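import Pool.Agent.Lib_helper73.ED.UPA

/-! Block UP: the upper bound -/

namespace Pool.Agent.Lib_helper17.ED

open Finset
open scoped Classical

theorem UP_edits {n : ℕ} (G G' : SimpleGraph (Fin n)) :
    2 * (edits G G' : ℝ) =
      ∑ u, ∑ w, (if u = w then (0 : ℝ) else if (G.Adj u w ↔ G'.Adj u w) then 0 else 1) := by
  let H : SimpleGraph (Fin n) := symmDiff G G'
  have hH : ∀ u w, H.Adj u w ↔ ((G.Adj u w ∧ ¬ G'.Adj u w) ∨ (G'.Adj u w ∧ ¬ G.Adj u w)) := by
    intro u w
    show (G \ G' ⊔ G' \ G).Adj u w ↔ _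
    rw [SimpleGraph.sup_adj, SimpleGraph.sdiff_adj, SimpleGraph.sdiff_adj]
  have hE : symmDiff G.edgeSet G'.edgeSet = H.edgeSet := by
    show _ = (G \ G' ⊔ G' \ G).edgeSet
    rw [SimpleGraph.edgeSet_sup, SimpleGraph.edgeSet_sdiff, SimpleGraph.edgeSet_sdiff]
    rfl
  have h1 : edits G G' = #H.edgeFinset := by
    unfold edits
    rw [hE, Set.ncard_eq_toFinset_card']
    rfl
  have h2 := H.sum_degrees_eq_twice_card_edges
  have h3 : ∀ u, (H.degree u : ℝ) =
      ∑ w, (if u = w then (0 : ℝ) else if (G.Adj u w ↔ G'.Adj u w) then 0 else 1) := by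
    intro u
    rw [← SimpleGraph.card_neighborFinset_eq_degree, SimpleGraph.neighborFinset_eq_filter,
      Finset.card_filter]
    push_cast
    refine Finset.sum_congr rfl fun w _ => ?_
    have := hH u w
    by_cases huw : u = w
    · subst huw
      have : ¬ H.Adj u u := H.loopless.irrefl u
      simp [this]
    · by_cases a : G.Adj u w <;> by_cases b : G'.Adj u w <;> simp [huw, a, b, this]
  rw [h1]
  have h4 : (2 : ℝ) * (#H.edgeFinset : ℝ) = ∑ u, (H.degree u : ℝ) := by
    exact_mod_cast h2.symm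
  rw [h4]
  exact Finset.sum_congr rfl fun u _ => h3 u

/-- the modified graph -/
def UP_graph {n : ℕ} {ι : Type} (G : SimpleGraph (Fin n)) (on off : ι → ι → Prop)
    (hon : ∀ i j, on i j → on j i) (hoff : ∀ i j, off i j → off j i) (c : Fin n → ι) :
    SimpleGraph (Fin n) where
  Adj u v := u ≠ v ∧ (on (c u) (c v) ∨ (¬ off (c u) (c v) ∧ G.Adj u v))
  symm := ⟨by
    rintro u v ⟨h1, h2⟩
    refine ⟨h1.symm, ?_⟩
    rcases h2 with h2 | ⟨h2, h3⟩
    · exact Or.inl (hon _ _ h2)
    · exact Or.inr ⟨fun h => h2 (hoff _ _ h), h3.symm⟩⟩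
  loopless := ⟨fun u h => h.1 rfl⟩

theorem UP_core {n : ℕ} {ι : Type} [Fintype ι] (G : SimpleGraph (Fin n))
    (on off : ι → ι → Prop) (hon : ∀ i j, on i j → on j i) (hoff : ∀ i j, off i j → off j i)
    (hdis : ∀ i j, on i j → ¬ off i j)
    (x : ι → ℝ) (h0 : ∀ i, 0 ≤ x i) (h1 : ∑ i, x i = 1) (A T : ℝ)
    (hA : A = ∑ u, ∑ w, (if u = w then (0 : ℝ) else if G.Adj u w then 1 else 0))
    (hT : T = ∑ u : Fin n, ∑ w : Fin n, (if u = w then (0 : ℝ) else 1)) :
    ∃ c : Fin n → ι, 2 * (edits G (UP_graph G on off hon hoff c) : ℝ) ≤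
      (T - A) * (∑ i, ∑ j, if on i j then x i * x j else 0) +
        A * (∑ i, ∑ j, if off i j then x i * x j else 0) := by
  obtain ⟨c, hc⟩ := upa_pr x h0 h1 (fun u w i j => if on i j then (if G.Adj u w then (0 : ℝ) else 1)
    else if off i j then (if G.Adj u w then 1 else 0) else 0)
  refine ⟨c, ?_⟩
  rw [UP_edits]
  have e1 : ∑ u, ∑ w, (if u = w then (0 : ℝ) else
      if (G.Adj u w ↔ (UP_graph G on off hon hoff c).Adj u w) then 0 else 1) =
      ∑ u, ∑ w, (if u = w then (0 : ℝ) else (if on (c u) (c w) then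
        (if G.Adj u w then (0 : ℝ) else 1)
        else if off (c u) (c w) then (if G.Adj u w then 1 else 0) else 0)) := by
    refine Finset.sum_congr rfl fun u _ => Finset.sum_congr rfl fun w _ => ?_
    by_cases huw : u = w
    · simp [huw]
    · have hadj : (UP_graph G on off hon hoff c).Adj u w ↔
        (on (c u) (c w) ∨ (¬ off (c u) (c w) ∧ G.Adj u w)) := by
        constructor
        · exact fun h => h.2
        · exact fun h => ⟨huw, h⟩
      rw [if_neg huw, if_neg huw]
      by_cases a : on (c u) (c w)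
      · by_cases g : G.Adj u w <;> simp [hadj, a, g]
      · by_cases b : off (c u) (c w)
        · by_cases g : G.Adj u w <;> simp [hadj, a, b, g]
        · by_cases g : G.Adj u w <;> simp [hadj, a, b, g]
  rw [e1]
  refine hc.trans (le_of_eq ?_)
  set Bon := ∑ i, ∑ j, (if on i j then x i * x j else 0) with hBon
  set Boff := ∑ i, ∑ j, (if off i j then x i * x j else 0) with hBoff
  have e2 : ∀ u w : Fin n, (∑ i, ∑ j, x i * x j *
      (if on i j then (if G.Adj u w then (0 : ℝ) else 1)
        else if off i j then (if G.Adj u w then 1 else 0) else 0)) =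
      (if G.Adj u w then Boff else Bon) := by
    intro u w
    by_cases g : G.Adj u w
    · have e0 : (if G.Adj u w then Boff else Bon) = Boff := if_pos g
      rw [e0, hBoff]
      refine Finset.sum_congr rfl fun i _ => Finset.sum_congr rfl fun j _ => ?_
      by_cases a : on i j
      · have := hdis i j a
        simp [a, g, this]
      · by_cases b : off i j <;> simp [a, b, g]
    · have e0 : (if G.Adj u w then Boff else Bon) = Bon := if_neg g
      rw [e0, hBon]
      refine Finset.sum_congr rfl fun i _ => Finset.sum_congr rfl fun j _ => ?_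
      by_cases a : on i j
      · simp [a, g]
      · by_cases b : off i j <;> simp [a, b, g]
  have e3 : ∑ u, ∑ w, (if u = w then (0 : ℝ) else ∑ i, ∑ j, x i * x j *
      (if on i j then (if G.Adj u w then (0 : ℝ) else 1)
        else if off i j then (if G.Adj u w then 1 else 0) else 0)) =
      ∑ u, ∑ w, ((if u = w then (0 : ℝ) else 1) * Bon -
        (if u = w then (0 : ℝ) else if G.Adj u w then 1 else 0) * Bon +
        (if u = w then (0 : ℝ) else if G.Adj u w then 1 else 0) * Boff) := by
    refine Finset.sum_congr rfl fun u _ => Finset.sum_congr rfl fun w _ => ?_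
    rw [e2]
    by_cases huw : u = w
    · simp [huw]
    · by_cases g : G.Adj u w <;> simp [huw, g]
  rw [e3, hA, hT]
  simp only [Finset.sum_add_distrib, Finset.sum_sub_distrib, ← Finset.sum_mul]
  ring

theorem UP_T (n : ℕ) :
    ∑ u : Fin n, ∑ w : Fin n, (if u = w then (0 : ℝ) else 1) = 2 * (n.choose 2 : ℝ) := by
  have h1 : ∀ u : Fin n, ∑ w : Fin n, (if u = w then (0 : ℝ) else 1) = (n : ℝ) - 1 := by
    intro u
    have : ∀ w : Fin n, (if u = w then (0 : ℝ) else 1) = 1 - (if u = w then 1 else 0) := by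
      intro w; split_ifs <;> ring
    rw [Finset.sum_congr rfl fun w _ => this w, Finset.sum_sub_distrib]
    simp
  rw [Finset.sum_congr rfl fun u _ => h1 u, Finset.sum_const, Finset.card_univ, Fintype.card_fin,
    nsmul_eq_mul, Nat.cast_choose_two]
  ring

theorem UP_pp : 2 * pp * (1 + pp) = 1 := by
  unfold pp
  have h : √3 ^ 2 = (3 : ℝ) := Real.sq_sqrt (by norm_num)
  nlinarith

theorem UP_q : qstar * (10 + 6 * pp) = 1 := by
  unfold pp qstar
  have h : √3 ^ 2 = (3 : ℝ) := Real.sq_sqrt (by norm_num)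
  nlinarith

theorem UP_q0 : 0 < qstar := by
  have h := UP_q
  have hp := pp_pos
  by_contra hneg
  push Not at hneg
  nlinarith

/-- the structure of case 1 -/
def UP_W : (Fin 5 × Bool) ⊕ Fin 3 → (Fin 5 × Bool) ⊕ Fin 3 → Prop
  | Sum.inl a, Sum.inl b => a.1 = b.1 ∧ a.2 ≠ b.2
  | Sum.inr a, Sum.inr b => a ≠ b
  | _, _ => False

theorem UP_W_symm (i j : (Fin 5 × Bool) ⊕ Fin 3) (h : UP_W i j) : UP_W j i := by
  rcases i with a | a <;> rcases j with b | b
  · exact ⟨h.1.symm, h.2.symm⟩
  · exact h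
  · exact h
  · exact Ne.symm h

theorem UP_W_irrefl (i : (Fin 5 × Bool) ⊕ Fin 3) : ¬ UP_W i i := by
  rcases i with a | a
  · exact fun h => h.2 rfl
  · exact fun h => h rfl

def UP_pi : (Fin 5 × Bool) ⊕ Fin 3 → (Fin 5 × Bool) ⊕ Fin 3
  | Sum.inl a => Sum.inl (a.1, !a.2)
  | Sum.inr a => Sum.inr (a + 1)

theorem UP_pi_W (i : (Fin 5 × Bool) ⊕ Fin 3) : UP_W (UP_pi i) i := by
  rcases i with ⟨a, s⟩ | a
  · exact ⟨rfl, by cases s <;> simp⟩
  · show a + 1 ≠ a
    revert a; decide

theorem UP_pi_inj : Function.Injective UP_pi := by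
  intro i j h
  rcases i with ⟨a, s⟩ | a <;> rcases j with ⟨b, t⟩ | b
  · simp only [UP_pi, Sum.inl.injEq, Prod.mk.injEq, Bool.not_eq_not] at h
    rw [h.1]
    have : s = t := by simpa using h.2
    rw [this]
  · simp [UP_pi] at h
  · simp [UP_pi] at h
  · simp only [UP_pi, Sum.inr.injEq] at h
    have : a = b := by simpa using h
    rw [this]

theorem UP_adj_lr {n : ℕ} {G : SimpleGraph (Fin n)} (f : K77 ↪g G) (i j : Fin 7) :
    G.Adj (f (Sum.inl i)) (f (Sum.inr j)) := by
  rw [f.map_adj_iff]; simp [K77]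

theorem UP_adj_ll {n : ℕ} {G : SimpleGraph (Fin n)} (f : K77 ↪g G) (i j : Fin 7) :
    ¬ G.Adj (f (Sum.inl i)) (f (Sum.inl j)) := by
  rw [f.map_adj_iff]; simp [K77]

theorem UP_adj_rr {n : ℕ} {G : SimpleGraph (Fin n)} (f : K77 ↪g G) (i j : Fin 7) :
    ¬ G.Adj (f (Sum.inr i)) (f (Sum.inr j)) := by
  rw [f.map_adj_iff]; simp [K77]

theorem UP_free1 {n : ℕ} (G : SimpleGraph (Fin n)) (c : Fin n → (Fin 5 × Bool) ⊕ Fin 3) :
    Free77 (UP_graph G (fun i j => i = j) UP_W (fun _ _ h => h.symm) UP_W_symm c) := by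
  refine ⟨fun f => ?_⟩
  have hL : Function.Injective (fun i : Fin 7 => c (f (Sum.inl i))) := by
    intro i j h
    by_contra hij
    apply UP_adj_ll f i j
    refine ⟨fun e => hij ?_, Or.inl h⟩
    exact Sum.inl_injective (f.injective e)
  have hR : Function.Injective (fun i : Fin 7 => c (f (Sum.inr i))) := by
    intro i j h
    by_contra hij
    apply UP_adj_rr f i j
    refine ⟨fun e => hij ?_, Or.inl h⟩
    exact Sum.inr_injective (f.injective e)
  set P := (univ : Finset (Fin 7)).image (fun i => c (f (Sum.inl i))) with hP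
  set Q := (univ : Finset (Fin 7)).image (fun i => c (f (Sum.inr i))) with hQ
  have cP : #P = 7 := by rw [hP, Finset.card_image_of_injective _ hL]; simp
  have cQ : #Q = 7 := by rw [hQ, Finset.card_image_of_injective _ hR]; simp
  have hPQ : ∀ p ∈ P, ∀ q ∈ Q, ¬ UP_W p q := by
    intro p hp q hq
    obtain ⟨i, _, rfl⟩ := Finset.mem_image.1 hp
    obtain ⟨j, _, rfl⟩ := Finset.mem_image.1 hq
    have h := UP_adj_lr f i j
    rcases h.2 with h | h
    · intro hw
      have h' : c (f (Sum.inl i)) = c (f (Sum.inr j)) := h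
      rw [h'] at hw
      exact UP_W_irrefl _ hw
    · exact h.1
  have hsub : (P ∩ Q).image UP_pi ⊆ (P ∪ Q)ᶜ := by
    intro y hy
    obtain ⟨v, hv, rfl⟩ := Finset.mem_image.1 hy
    rw [Finset.mem_inter] at hv
    rw [Finset.mem_compl, Finset.mem_union]
    rintro (h | h)
    · exact hPQ _ h _ hv.2 (UP_pi_W v)
    · exact hPQ _ hv.1 _ h (UP_W_symm _ _ (UP_pi_W v))
  have h1 := Finset.card_le_card hsub
  rw [Finset.card_image_of_injective _ UP_pi_inj, Finset.card_compl] at h1
  have h2 := Finset.card_union_add_card_inter P Q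
  have h3 : Fintype.card ((Fin 5 × Bool) ⊕ Fin 3) = 13 := by simp
  have h4 := Finset.card_le_univ (P ∪ Q)
  rw [h3] at h1 h4
  rw [cP, cQ] at h2
  omega

theorem UP_on2 (i j : Option (Fin 6)) (h : i = j ∧ i ≠ none) : j = i ∧ j ≠ none :=
  ⟨h.1.symm, h.1 ▸ h.2⟩

theorem UP_off2 (i j : Option (Fin 6)) (h : i = j ∧ i = none) : j = i ∧ j = none :=
  ⟨h.1.symm, h.1 ▸ h.2⟩

theorem UP_free2 {n : ℕ} (G : SimpleGraph (Fin n)) (c : Fin n → Option (Fin 6))
    (hon) (hoff) :
    Free77 (UP_graph G (fun i j => i = j ∧ i ≠ none) (fun i j => i = j ∧ i = none) hon hoff c) := by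
  refine ⟨fun f => ?_⟩
  have key : ∀ (g : Fin 7 → Fin n), Function.Injective g →
      (∀ i j, ¬ (UP_graph G (fun i j => i = j ∧ i ≠ none) (fun i j => i = j ∧ i = none)
        hon hoff c).Adj (g i) (g j)) → ∃ i, c (g i) = none := by
    intro g hg hadj
    by_contra hno
    push Not at hno
    have h1 : ∀ i, ∃ a : Fin 6, c (g i) = some a := fun i => Option.ne_none_iff_exists'.1 (hno i)
    choose a ha using h1
    obtain ⟨i, j, hij, haij⟩ := Fintype.exists_ne_map_eq_of_card_lt a (by simp)
    apply hadj i j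
    refine ⟨fun e => hij (hg e), Or.inl ⟨?_, hno i⟩⟩
    rw [ha i, ha j, haij]
  obtain ⟨i, hi⟩ := key (fun i => f (Sum.inl i)) (fun a b h => Sum.inl_injective (f.injective h))
    (fun a b => UP_adj_ll f a b)
  obtain ⟨j, hj⟩ := key (fun i => f (Sum.inr i)) (fun a b h => Sum.inr_injective (f.injective h))
    (fun a b => UP_adj_rr f a b)
  have h := UP_adj_lr f i j
  rcases h.2 with h | h
  · exact h.2 hi
  · apply h.1
    exact ⟨hi.trans hj.symm, hi⟩

theorem upper_pr (n : ℕ) (hn : 2 ≤ n) (G : SimpleGraph (Fin n)) :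
    ∃ G' : SimpleGraph (Fin n), Free77 G' ∧ (edits G G' : ℝ) ≤ qstar * (n.choose 2 : ℝ) := by
  have hp0 := pp_pos
  have hp1 := pp_lt
  have hpp := UP_pp
  have hq := UP_q
  have hq0 := UP_q0
  set A := ∑ u, ∑ w, (if u = w then (0 : ℝ) else if G.Adj u w then 1 else 0) with hA
  set T := ∑ u : Fin n, ∑ w : Fin n, (if u = w then (0 : ℝ) else 1) with hT
  have hTc : T = 2 * (n.choose 2 : ℝ) := UP_T n
  have hT0 : 0 ≤ T := by rw [hTc]; positivity
  rcases le_total A (pp * T) with hle | hle
  · -- case 1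
    let x : (Fin 5 × Bool) ⊕ Fin 3 → ℝ := Sum.elim (fun _ => qstar) (fun _ => 2 * pp * qstar)
    have hx0 : ∀ i, 0 ≤ x i := by
      rintro (i | i)
      · exact hq0.le
      · show 0 ≤ 2 * pp * qstar
        positivity
    have hx1 : ∑ i, x i = 1 := by
      rw [Fintype.sum_sum_type]
      simp only [x, Sum.elim_inl, Sum.elim_inr, Finset.sum_const, Finset.card_univ,
        Fintype.card_prod, Fintype.card_fin, Fintype.card_bool, nsmul_eq_mul]
      push_cast
      linarith
    obtain ⟨c, hc⟩ := UP_core G (fun i j => i = j) UP_W (fun _ _ h => h.symm) UP_W_symm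
      (fun i j h => by subst h; exact UP_W_irrefl i) x hx0 hx1 A T hA hT
    refine ⟨_, UP_free1 G c, ?_⟩
    have hB : ∑ i, ∑ j, (if i = j then x i * x j else 0) = qstar ^ 2 * (10 + 12 * pp ^ 2) := by
      have : ∀ i, ∑ j, (if i = j then x i * x j else 0) = x i ^ 2 := by
        intro i; rw [Finset.sum_ite_eq]; simp [sq]
      rw [Finset.sum_congr rfl fun i _ => this i, Fintype.sum_sum_type]
      simp only [x, Sum.elim_inl, Sum.elim_inr, Finset.sum_const, Finset.card_univ,
        Fintype.card_prod, Fintype.card_fin, Fintype.card_bool, nsmul_eq_mul]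
      push_cast
      ring
    have hW : ∑ i, ∑ j, (if UP_W i j then x i * x j else 0) = qstar ^ 2 * (10 + 24 * pp ^ 2) := by
      have h1 : ∀ a : Fin 5 × Bool, ∑ j, (if UP_W (Sum.inl a) j then x (Sum.inl a) * x j else 0) =
          qstar ^ 2 := by
        rintro ⟨a, s⟩
        rw [Fintype.sum_sum_type]
        have z : ∑ b : Fin 3, (if UP_W (Sum.inl (a, s)) (Sum.inr b) then
            x (Sum.inl (a, s)) * x (Sum.inr b) else 0) = 0 := by
          apply Finset.sum_eq_zero
          intro b _
          have : ¬ UP_W (Sum.inl (a, s)) (Sum.inr b) := fun h => h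
          simp [this]
        rw [z, add_zero, Finset.sum_eq_single (a, !s)]
        · have : UP_W (Sum.inl (a, s)) (Sum.inl (a, !s)) := ⟨rfl, by cases s <;> simp⟩
          rw [if_pos this]; simp [x, sq]
        · rintro ⟨b, t⟩ _ hbt
          have : ¬ UP_W (Sum.inl (a, s)) (Sum.inl (b, t)) := by
            rintro ⟨e1, e2⟩
            apply hbt
            have e1' : a = b := e1
            have e2' : s ≠ t := e2
            subst e1'
            cases s <;> cases t <;> simp_all
          simp [this]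
        · simp
      have h2 : ∀ a : Fin 3, ∑ j, (if UP_W (Sum.inr a) j then x (Sum.inr a) * x j else 0) =
          8 * pp ^ 2 * qstar ^ 2 := by
        intro a
        rw [Fintype.sum_sum_type]
        have z : ∑ b : Fin 5 × Bool, (if UP_W (Sum.inr a) (Sum.inl b) then
            x (Sum.inr a) * x (Sum.inl b) else 0) = 0 := by
          apply Finset.sum_eq_zero
          intro b _
          have : ¬ UP_W (Sum.inr a) (Sum.inl b) := fun h => h
          simp [this]
        rw [z, zero_add]
        have e : ∀ b : Fin 3, (if UP_W (Sum.inr a) (Sum.inr b) then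
            x (Sum.inr a) * x (Sum.inr b) else 0) = (4 * pp ^ 2 * qstar ^ 2) -
              (if a = b then 4 * pp ^ 2 * qstar ^ 2 else 0) := by
          intro b
          have hw : UP_W (Sum.inr a) (Sum.inr b) ↔ a ≠ b := Iff.rfl
          by_cases hab : a = b
          · have hnw : ¬ UP_W (Sum.inr a) (Sum.inr b) := fun h => (hw.1 h) hab
            rw [if_neg hnw, if_pos hab]; ring
          · simp only [hw, ne_eq, hab, not_false_iff, if_true, if_false, x, Sum.elim_inr]
            ring
        rw [Finset.sum_congr rfl fun b _ => e b, Finset.sum_sub_distrib, Finset.sum_ite_eq]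
        simp only [Finset.sum_const, Finset.card_univ, Fintype.card_fin, nsmul_eq_mul,
          Finset.mem_univ, if_true]
        push_cast
        ring
      rw [Fintype.sum_sum_type, Finset.sum_congr rfl fun a _ => h1 a,
        Finset.sum_congr rfl fun a _ => h2 a]
      simp only [Finset.sum_const, Finset.card_univ,
        Fintype.card_prod, Fintype.card_fin, Fintype.card_bool, nsmul_eq_mul]
      push_cast
      ring
    have hc' : 2 * (edits G (UP_graph G (fun i j => i = j) UP_W (fun _ _ h => h.symm)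
        UP_W_symm c) : ℝ) ≤ (T - A) * (qstar ^ 2 * (10 + 12 * pp ^ 2)) +
          A * (qstar ^ 2 * (10 + 24 * pp ^ 2)) := by
      rw [← hB, ← hW]; convert hc
    have h1 : (T - A) * (qstar ^ 2 * (10 + 12 * pp ^ 2)) + A * (qstar ^ 2 * (10 + 24 * pp ^ 2)) ≤
        T * qstar := by
      have e1 : (T - A) * (qstar ^ 2 * (10 + 12 * pp ^ 2)) +
          A * (qstar ^ 2 * (10 + 24 * pp ^ 2)) =
          T * (qstar ^ 2 * (10 + 12 * pp ^ 2)) + A * (12 * pp ^ 2 * qstar ^ 2) := by ring
      have e2 : A * (12 * pp ^ 2 * qstar ^ 2) ≤ (pp * T) * (12 * pp ^ 2 * qstar ^ 2) :=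
        mul_le_mul_of_nonneg_right hle (by positivity)
      have e3 : T * (qstar ^ 2 * (10 + 12 * pp ^ 2)) + (pp * T) * (12 * pp ^ 2 * qstar ^ 2) =
          T * (qstar * (qstar * (10 + 6 * pp * (2 * pp * (1 + pp))))) := by ring
      rw [hpp, mul_one, hq, mul_one] at e3
      linarith
    have h2 := hc'.trans h1
    rw [hTc] at h2
    linarith
  · -- case 2
    have hp1' : 0 < 1 - pp := by linarith
    have hqs : qstar * (1 + 5 * pp) = pp * (1 - pp) := by
      unfold pp qstar
      have h : √3 ^ 2 = (3 : ℝ) := Real.sq_sqrt (by norm_num)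
      nlinarith
    let x : Option (Fin 6) → ℝ := fun o => if o = none then qstar / pp else qstar / (1 - pp)
    have hx0 : ∀ i, 0 ≤ x i := by
      intro i
      simp only [x]
      split_ifs <;> positivity
    have hsum : qstar / pp + 6 * (qstar / (1 - pp)) = 1 := by
      have : qstar / pp + 6 * (qstar / (1 - pp)) = qstar * (1 + 5 * pp) / (pp * (1 - pp)) := by
        field_simp
        ring
      rw [this, hqs]
      exact div_self (by positivity)
    have hx1 : ∑ i, x i = 1 := by
      rw [Fintype.sum_option]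
      simp only [x, if_true, reduceCtorEq, if_false, Finset.sum_const, Finset.card_univ,
        Fintype.card_fin, nsmul_eq_mul]
      push_cast
      exact hsum
    obtain ⟨c, hc⟩ := UP_core G (fun i j => i = j ∧ i ≠ none) (fun i j => i = j ∧ i = none)
      UP_on2 UP_off2 (fun i j h h' => h.2 h'.2) x hx0 hx1 A T hA hT
    refine ⟨_, UP_free2 G c UP_on2 UP_off2, ?_⟩
    have hB : ∑ i, ∑ j, (if i = j ∧ i ≠ none then x i * x j else 0) =
        6 * (qstar / (1 - pp)) ^ 2 := by
      have : ∀ i, ∑ j, (if i = j ∧ i ≠ none then x i * x j else 0) =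
          if i ≠ none then x i ^ 2 else 0 := by
        intro i
        by_cases hi : i = none
        · simp [hi]
        · simp only [hi, ne_eq, not_false_iff, and_true, if_true]
          rw [Finset.sum_ite_eq]; simp [sq]
      rw [Finset.sum_congr rfl fun i _ => this i, Fintype.sum_option]
      simp [x]
    have hW : ∑ i, ∑ j, (if i = j ∧ i = none then x i * x j else 0) = (qstar / pp) ^ 2 := by
      have : ∀ i, ∑ j, (if i = j ∧ i = none then x i * x j else 0) =
          if i = none then x i ^ 2 else 0 := by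
        intro i
        by_cases hi : i = none
        · simp only [hi, and_true, if_true]
          rw [Finset.sum_ite_eq]; simp [sq]
        · simp [hi]
      rw [Finset.sum_congr rfl fun i _ => this i, Fintype.sum_option]
      simp [x]
    have hc' : 2 * (edits G (UP_graph G (fun i j => i = j ∧ i ≠ none)
        (fun i j => i = j ∧ i = none) UP_on2 UP_off2 c) : ℝ) ≤
        (T - A) * (6 * (qstar / (1 - pp)) ^ 2) + A * (qstar / pp) ^ 2 := by
      rw [← hB, ← hW]; convert hc
    have h1 : (T - A) * (6 * (qstar / (1 - pp)) ^ 2) + A * (qstar / pp) ^ 2 ≤ T * qstar := by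
      have hslope : (qstar / pp) ^ 2 - 6 * (qstar / (1 - pp)) ^ 2 ≤ 0 := by
        have e1 : (qstar / pp) ^ 2 - 6 * (qstar / (1 - pp)) ^ 2 =
            qstar ^ 2 * ((1 - pp) ^ 2 - 6 * pp ^ 2) / (pp ^ 2 * (1 - pp) ^ 2) := by
          field_simp
        rw [e1]
        apply div_nonpos_of_nonpos_of_nonneg _ (by positivity)
        apply mul_nonpos_of_nonneg_of_nonpos (by positivity)
        nlinarith
      have e1 : (T - A) * (6 * (qstar / (1 - pp)) ^ 2) + A * (qstar / pp) ^ 2 =
          T * (6 * (qstar / (1 - pp)) ^ 2) +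
            A * ((qstar / pp) ^ 2 - 6 * (qstar / (1 - pp)) ^ 2) := by ring
      have e2 : A * ((qstar / pp) ^ 2 - 6 * (qstar / (1 - pp)) ^ 2) ≤
          (pp * T) * ((qstar / pp) ^ 2 - 6 * (qstar / (1 - pp)) ^ 2) :=
        mul_le_mul_of_nonpos_right hle hslope
      have e3 : T * (6 * (qstar / (1 - pp)) ^ 2) +
          (pp * T) * ((qstar / pp) ^ 2 - 6 * (qstar / (1 - pp)) ^ 2) =
          T * (qstar * (qstar / pp + 6 * (qstar / (1 - pp)))) := by
        field_simp
        ring
      rw [hsum, mul_one] at e3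
      linarith
    have h2 := hc'.trans h1
    rw [hTc] at h2
    linarith

end Pool.Agent.Lib_helper17.ED
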