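import Pool.Agent.Lib_helper17.ED.Defs

/-! Block UPA -/

namespace Pool.Agent.Lib_helper17.ED

open Finset

theorem UPA_one {V ι : Type} [Fintype V] [DecidableEq V] [Fintype ι] [DecidableEq ι]
    (x : ι → ℝ) (h1 : ∑ i, x i = 1) : ∑ c : V → ι, ∏ v, x (c v) = 1 := by
  have := Finset.prod_univ_sum (fun _ : V => (univ : Finset ι)) (fun _ i => x i)
  rw [Fintype.piFinset_univ] at this
  rw [← this]; simp [h1]

theorem UPA_pair {V ι : Type} [Fintype V] [DecidableEq V] [Fintype ι] [DecidableEq ι]
    (x : ι → ℝ) (h1 : ∑ i, x i = 1) (u w : V) (huw : u ≠ w) (i j : ι) :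
    ∑ c : V → ι, (∏ v, x (c v)) * (if c u = i ∧ c w = j then 1 else 0) = x i * x j := by
  have e1 : ∀ c : V → ι, (∏ v, x (c v)) * (if c u = i ∧ c w = j then (1 : ℝ) else 0) =
      ∏ v, (x (c v) * ((if v = u then (if c v = i then 1 else 0) else 1) *
        (if v = w then (if c v = j then 1 else 0) else 1))) := by
    intro c
    rw [Finset.prod_mul_distrib, Finset.prod_mul_distrib]
    congr 1
    rw [Finset.prod_ite_eq' univ u, Finset.prod_ite_eq' univ w]
    simp only [Finset.mem_univ, if_true]
    by_cases h1 : c u = i <;> by_cases h2 : c w = j <;> simp [h1, h2]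
  rw [Finset.sum_congr rfl fun c _ => e1 c]
  have := Finset.prod_univ_sum (fun _ : V => (univ : Finset ι))
    (fun v k => x k * ((if v = u then (if k = i then (1 : ℝ) else 0) else 1) *
        (if v = w then (if k = j then 1 else 0) else 1)))
  rw [Fintype.piFinset_univ] at this
  rw [← this]
  have e2 : ∀ v, ∑ k, x k * ((if v = u then (if k = i then (1 : ℝ) else 0) else 1) *
        (if v = w then (if k = j then 1 else 0) else 1)) =
      (if v = u then x i else 1) * (if v = w then x j else 1) := by
    intro v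
    by_cases hu : v = u
    · subst hu
      simp [huw]
    · by_cases hw : v = w
      · subst hw
        simp [hu]
      · simp [hu, hw, h1]
  rw [Finset.prod_congr rfl fun v _ => e2 v, Finset.prod_mul_distrib,
    Finset.prod_ite_eq' univ u, Finset.prod_ite_eq' univ w]
  simp

theorem upa_pr {V ι : Type} [Fintype V] [DecidableEq V] [Fintype ι] [DecidableEq ι]
    (x : ι → ℝ) (h0 : ∀ i, 0 ≤ x i) (h1 : ∑ i, x i = 1) (cost : V → V → ι → ι → ℝ) :
    ∃ c : V → ι, ∑ u, ∑ w, (if u = w then 0 else cost u w (c u) (c w)) ≤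
      ∑ u, ∑ w, (if u = w then 0 else ∑ i, ∑ j, x i * x j * cost u w i j) := by
  by_contra hcon
  push Not at hcon
  set E := ∑ u, ∑ w, (if u = w then 0 else ∑ i, ∑ j, x i * x j * cost u w i j) with hE
  have hw0 : ∀ c : V → ι, 0 ≤ ∏ v, x (c v) := fun c => Finset.prod_nonneg fun v _ => h0 _
  have hw1 := UPA_one (V := V) x h1
  have key : ∑ c : V → ι, (∏ v, x (c v)) *
      (∑ u, ∑ w, (if u = w then 0 else cost u w (c u) (c w))) = E := by
    have e1 : ∀ c : V → ι, (∏ v, x (c v)) *
        (∑ u, ∑ w, (if u = w then 0 else cost u w (c u) (c w))) =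
        ∑ u, ∑ w, (∏ v, x (c v)) * (if u = w then 0 else cost u w (c u) (c w)) := by
      intro c
      rw [Finset.mul_sum]
      exact Finset.sum_congr rfl fun u _ => Finset.mul_sum _ _ _
    rw [Finset.sum_congr rfl fun c _ => e1 c, Finset.sum_comm, hE]
    refine Finset.sum_congr rfl fun u _ => ?_
    rw [Finset.sum_comm]
    refine Finset.sum_congr rfl fun w _ => ?_
    by_cases huw : u = w
    · simp [huw]
    · simp only [huw, if_false]
      have e2 : ∀ c : V → ι, (∏ v, x (c v)) * cost u w (c u) (c w) =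
          ∑ i, ∑ j, ((∏ v, x (c v)) * (if c u = i ∧ c w = j then 1 else 0)) * cost u w i j := by
        intro c
        rw [Finset.sum_eq_single (c u)]
        · rw [Finset.sum_eq_single (c w)]
          · simp
          · intro j _ hj
            simp [Ne.symm hj]
          · simp
        · intro i _ hi
          apply Finset.sum_eq_zero
          intro j _
          simp [Ne.symm hi]
        · simp
      rw [Finset.sum_congr rfl fun c _ => e2 c, Finset.sum_comm]
      refine Finset.sum_congr rfl fun i _ => ?_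
      rw [Finset.sum_comm]
      refine Finset.sum_congr rfl fun j _ => ?_
      rw [← Finset.sum_mul, UPA_pair x h1 u w huw i j]
  have hpos : ∃ c : V → ι, 0 < ∏ v, x (c v) := by
    by_contra hno
    push Not at hno
    have : ∑ c : V → ι, ∏ v, x (c v) ≤ 0 := Finset.sum_nonpos fun c _ => hno c
    linarith
  obtain ⟨c0, hc0⟩ := hpos
  have hlt : ∑ c : V → ι, (∏ v, x (c v)) * E < ∑ c : V → ι, (∏ v, x (c v)) *
      (∑ u, ∑ w, (if u = w then 0 else cost u w (c u) (c w))) := by
    apply Finset.sum_lt_sum
    · intro c _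
      exact mul_le_mul_of_nonneg_left (hcon c).le (hw0 c)
    · exact ⟨c0, Finset.mem_univ _, mul_lt_mul_of_pos_left (hcon c0) hc0⟩
  rw [key, ← Finset.sum_mul, hw1, one_mul] at hlt
  exact lt_irrefl _ hlt

end Pool.Agent.Lib_helper17.ED
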